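import Pool.Agent.W709.VC.GeoDefs
import Pool.Agent.W305.VC.Pot

/-!
# GEO-ITHREE: the potential in terms of ideal tetrahedra
-/

set_option autoImplicit false

namespace Pool.Agent.W342.VC

open Filter Finset MeasureTheory GapVol EvenVol Pool.Agent.W709.VC Pool.Agent.W305.VC
open scoped Real Topology

/-- the argument of a nonzero real multiple of `e^{i φ}`, seen by `lob` -/
theorem lob_arg_pos (r φ : ℝ) (hr : 0 < r) :
    lob (Complex.arg (r * Complex.exp (φ * Complex.I))) = lob φ := by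
  rw [Complex.arg_real_mul _ hr, Complex.arg_exp_mul_I, toIocMod]
  have h2 : Function.Periodic lob (2 * π) := by
    have := LobIneq.lob_per.nsmul 2
    simpa using this
  exact h2.sub_zsmul_eq _

theorem lob_arg (r φ : ℝ) (hr : r ≠ 0) :
    lob (Complex.arg (r * Complex.exp (φ * Complex.I))) = lob φ := by
  rcases lt_or_gt_of_ne hr with h | h
  · have h1 : (r : ℂ) * Complex.exp (φ * Complex.I) =
        ((-r : ℝ) : ℂ) * Complex.exp (((φ + π : ℝ) : ℂ) * Complex.I) := by
      push_cast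
      rw [add_mul, Complex.exp_add, Complex.exp_pi_mul_I]
      ring
    rw [h1, lob_arg_pos _ _ (by linarith)]
    exact LobIneq.lob_per φ
  · exact lob_arg_pos r φ h

theorem g_eq_log (x : ℝ) : g x = -Real.log |2 * Real.sin x| := LobIneq.g_eq_abs x

theorem lob_hasDeriv {x : ℝ} (hx : Real.sin x ≠ 0) : HasDerivAt lob (g x) x := by
  have hc : ContinuousAt g x := by
    have h1 : ContinuousAt (fun t => Real.log (2 * Real.sin t)) x :=
      ContinuousAt.log (by fun_prop) (mul_ne_zero two_ne_zero hx)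
    exact h1.neg
  have hfun : lob = fun y => ∫ t in (0:ℝ)..y, g t := by
    funext y; exact lob_eq y
  rw [hfun]
  refine intervalIntegral.integral_hasDerivAt_right (g_int 0 x) ?_ hc
  have hm : Measurable g := by
    unfold g
    exact (Real.measurable_log.comp (by fun_prop)).neg
  exact hm.stronglyMeasurable.stronglyMeasurableAtFilter

section

variable (η : ℝ)

/-- the argument of `1 + e^{-η + i θ}` -/
noncomputable def GG (θ : ℝ) : ℝ := Real.arctan (Real.sin θ / (Real.exp η + Real.cos θ))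

/-- the length of `e^η + e^{i θ}` -/
noncomputable def RR (θ : ℝ) : ℝ :=
  Real.sqrt ((Real.exp η + Real.cos θ) ^ 2 + Real.sin θ ^ 2)

/-- the function `D(θ)` -/
noncomputable def DD (θ : ℝ) : ℝ := -lob θ + lob (GG η θ) + lob (θ - GG η θ)

end

theorem c_pos {η : ℝ} (hη : 0 < η) (θ : ℝ) : 0 < Real.exp η + Real.cos θ := by
  have h1 : 1 < Real.exp η := Real.one_lt_exp_iff.2 hη
  have h2 := Real.neg_one_le_cos θ
  linarith

theorem RR_pos {η : ℝ} (hη : 0 < η) (θ : ℝ) : 0 < RR η θ := by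
  unfold RR
  apply Real.sqrt_pos.2
  have := c_pos hη θ
  positivity

theorem RR_sq {η : ℝ} (θ : ℝ) :
    RR η θ ^ 2 = (Real.exp η + Real.cos θ) ^ 2 + Real.sin θ ^ 2 := by
  unfold RR
  rw [Real.sq_sqrt (by positivity)]

theorem RR_sq' {η : ℝ} (θ : ℝ) :
    RR η θ ^ 2 = Real.exp η * (2 * Real.cosh η + 2 * Real.cos θ) := by
  rw [RR_sq, Real.cosh_eq]
  have h1 := Real.sin_sq_add_cos_sq θ
  have h2 : Real.exp η * Real.exp (-η) = 1 := by rw [← Real.exp_add]; simp
  linear_combination h1 - h2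

theorem sqrt_aux {η : ℝ} (hη : 0 < η) (θ : ℝ) :
    Real.sqrt (1 + (Real.sin θ / (Real.exp η + Real.cos θ)) ^ 2) =
      RR η θ / (Real.exp η + Real.cos θ) := by
  have hc := c_pos hη θ
  rw [Real.sqrt_eq_iff_mul_self_eq (by positivity) (by have := RR_pos hη θ; positivity)]
  have := RR_sq (η := η) θ
  field_simp
  linarith

theorem cos_GG {η : ℝ} (hη : 0 < η) (θ : ℝ) :
    RR η θ * Real.cos (GG η θ) = Real.exp η + Real.cos θ := by
  unfold GG
  rw [Real.cos_arctan, sqrt_aux hη]
  have h1 := (RR_pos hη θ).ne'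
  have h2 := (c_pos hη θ).ne'
  field_simp

theorem sin_GG {η : ℝ} (hη : 0 < η) (θ : ℝ) :
    RR η θ * Real.sin (GG η θ) = Real.sin θ := by
  unfold GG
  rw [Real.sin_arctan, sqrt_aux hη]
  have h1 := (RR_pos hη θ).ne'
  have h2 := (c_pos hη θ).ne'
  field_simp

theorem sin_sub_GG {η : ℝ} (hη : 0 < η) (θ : ℝ) :
    RR η θ * Real.sin (θ - GG η θ) = Real.exp η * Real.sin θ := by
  rw [Real.sin_sub]
  have h1 := cos_GG hη θ
  have h2 := sin_GG hη θ
  linear_combination Real.sin θ * h1 - Real.cos θ * h2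

/-- `e^η + e^{i θ}` in polar form -/
theorem polar {η : ℝ} (hη : 0 < η) (θ : ℝ) :
    ((Real.exp η : ℝ) : ℂ) + Complex.exp (θ * Complex.I) =
      (RR η θ : ℂ) * Complex.exp ((GG η θ : ℝ) * Complex.I) := by
  rw [Complex.exp_mul_I, Complex.exp_mul_I, ← Complex.ofReal_cos, ← Complex.ofReal_sin,
    ← Complex.ofReal_cos, ← Complex.ofReal_sin]
  have h1 : ((RR η θ * Real.cos (GG η θ) : ℝ) : ℂ) = ((Real.exp η + Real.cos θ : ℝ) : ℂ) := by
    rw [cos_GG hη]
  have h2 : ((RR η θ * Real.sin (GG η θ) : ℝ) : ℂ) = ((Real.sin θ : ℝ) : ℂ) := by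
    rw [sin_GG hη]
  push_cast at h1 h2 ⊢
  linear_combination -h1 - Complex.I * h2

theorem GG_neg {η : ℝ} (θ : ℝ) : GG η (-θ) = -GG η θ := by
  unfold GG
  rw [Real.sin_neg, Real.cos_neg, neg_div, Real.arctan_neg]

theorem RR_neg {η : ℝ} (θ : ℝ) : RR η (-θ) = RR η θ := by
  unfold RR
  rw [Real.sin_neg, Real.cos_neg, neg_sq]

theorem DD_neg {η : ℝ} (θ : ℝ) : DD η (-θ) = -DD η θ := by
  unfold DD
  rw [GG_neg, LobIneq.lob_neg, LobIneq.lob_neg]
  have : -θ - -GG η θ = -(θ - GG η θ) := by ring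
  rw [this, LobIneq.lob_neg]
  ring

/-- value of `Dv` inside the unit circle -/
theorem Dv_in {η : ℝ} (hη : 0 < η) (θ : ℝ) (z : ℂ)
    (hz : z = -Complex.exp (-(η : ℂ) - θ * Complex.I)) : Dv z = DD η θ := by
  have hR := RR_pos hη θ
  have hRc : (RR η θ : ℂ) ≠ 0 := by exact_mod_cast hR.ne'
  have hpol := polar hη (-θ)
  rw [GG_neg, RR_neg] at hpol
  push_cast at hpol
  have e1 : z = ((-Real.exp (-η) : ℝ) : ℂ) * Complex.exp (((-θ : ℝ) : ℂ) * Complex.I) := by
    rw [hz]
    push_cast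
    rw [neg_mul, ← Complex.exp_add]
    congr 2
    ring
  have hee : Complex.exp η * Complex.exp (-η) = 1 := by rw [← Complex.exp_add]; simp
  have hzexp : Complex.exp η * z = -Complex.exp (-θ * Complex.I) := by
    rw [hz, mul_neg, ← Complex.exp_add]
    congr 2
    ring
  have h1z : Complex.exp η * (1 - z) = (RR η θ : ℂ) * Complex.exp (-(GG η θ) * Complex.I) := by
    rw [← hpol, mul_sub, hzexp]
    ring
  have hz0 : z ≠ 0 := by rw [hz]; exact neg_ne_zero.2 (Complex.exp_ne_zero _)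
  have he0 : Complex.exp η ≠ 0 := Complex.exp_ne_zero _
  have h1z0 : 1 - z ≠ 0 := by
    intro h
    rw [h, mul_zero] at h1z
    exact (mul_ne_zero hRc (Complex.exp_ne_zero _)) h1z.symm
  have e2 : 1 / (1 - z) = ((Real.exp η / RR η θ : ℝ) : ℂ) *
      Complex.exp (((GG η θ : ℝ) : ℂ) * Complex.I) := by
    rw [div_eq_iff h1z0]
    push_cast
    have h3 : Complex.exp (GG η θ * Complex.I) * Complex.exp (-(GG η θ) * Complex.I) = 1 := by
      rw [← Complex.exp_add]
      ring_nf
      exact Complex.exp_zero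
    have h4 : Complex.exp η / (RR η θ : ℂ) * Complex.exp (GG η θ * Complex.I) * (1 - z) =
        Complex.exp (GG η θ * Complex.I) / (RR η θ : ℂ) * (Complex.exp η * (1 - z)) := by ring
    have h5 : Complex.exp (GG η θ * Complex.I) / (RR η θ : ℂ) *
        ((RR η θ : ℂ) * Complex.exp (-(GG η θ) * Complex.I)) =
        (Complex.exp (GG η θ * Complex.I) * Complex.exp (-(GG η θ) * Complex.I)) *
          ((RR η θ : ℂ) / (RR η θ : ℂ)) := by ring
    rw [h4, h1z, h5, h3, div_self hRc, mul_one]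
  have e3 : 1 - 1 / z = ((RR η θ : ℝ) : ℂ) *
      Complex.exp (((θ - GG η θ : ℝ) : ℂ) * Complex.I) := by
    have h5 : Complex.exp (((θ - GG η θ : ℝ) : ℂ) * Complex.I) =
        Complex.exp (θ * Complex.I) * Complex.exp (-(GG η θ) * Complex.I) := by
      rw [← Complex.exp_add]
      congr 1
      push_cast
      ring
    have h6 : 1 / z = -(Complex.exp η * Complex.exp (θ * Complex.I)) := by
      rw [div_eq_iff hz0, hz]
      rw [neg_mul_neg, ← Complex.exp_add, ← Complex.exp_add]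
      have : (η : ℂ) + θ * Complex.I + (-η - θ * Complex.I) = 0 := by ring
      rw [this, Complex.exp_zero]
    have h7 : Complex.exp (θ * Complex.I) * Complex.exp (-θ * Complex.I) = 1 := by
      rw [← Complex.exp_add]
      ring_nf
      exact Complex.exp_zero
    rw [h5, h6]
    linear_combination Complex.exp (θ * Complex.I) * hpol - h7
  have hexp0 := Real.exp_pos (-η)
  unfold Dv DD
  rw [e2, e3]
  conv_lhs => rw [e1]
  rw [lob_arg _ _ (neg_ne_zero.2 hexp0.ne'), lob_arg_pos _ _ (by positivity),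
    lob_arg_pos _ _ hR, LobIneq.lob_neg]

/-- value of `Dv` outside the unit circle -/
theorem Dv_out {η : ℝ} (hη : 0 < η) (θ : ℝ) (z : ℂ)
    (hz : z = -Complex.exp ((η : ℂ) + θ * Complex.I)) : Dv z = -DD η θ := by
  have hR := RR_pos hη θ
  have hRc : (RR η θ : ℂ) ≠ 0 := by exact_mod_cast hR.ne'
  have hpol := polar hη (-θ)
  rw [GG_neg, RR_neg] at hpol
  push_cast at hpol
  have e1 : z = ((-Real.exp η : ℝ) : ℂ) * Complex.exp (((θ : ℝ) : ℂ) * Complex.I) := by
    rw [hz]
    push_cast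
    rw [neg_mul, ← Complex.exp_add]
  have hzexp : z = -(Complex.exp η * Complex.exp (θ * Complex.I)) := by
    rw [hz, Complex.exp_add]
  have h7 : Complex.exp (θ * Complex.I) * Complex.exp (-θ * Complex.I) = 1 := by
    rw [← Complex.exp_add]
    ring_nf
    exact Complex.exp_zero
  have h3 : Complex.exp (GG η θ * Complex.I) * Complex.exp (-(GG η θ) * Complex.I) = 1 := by
    rw [← Complex.exp_add]
    ring_nf
    exact Complex.exp_zero
  have h1z : 1 - z = (RR η θ : ℂ) * (Complex.exp (θ * Complex.I) *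
      Complex.exp (-(GG η θ) * Complex.I)) := by
    rw [hzexp]
    linear_combination Complex.exp (θ * Complex.I) * hpol - h7
  have hz0 : z ≠ 0 := by rw [hz]; exact neg_ne_zero.2 (Complex.exp_ne_zero _)
  have h1z0 : 1 - z ≠ 0 := by
    rw [h1z]
    exact mul_ne_zero hRc (mul_ne_zero (Complex.exp_ne_zero _) (Complex.exp_ne_zero _))
  have e2 : 1 / (1 - z) = (((RR η θ)⁻¹ : ℝ) : ℂ) *
      Complex.exp (((-(θ - GG η θ) : ℝ) : ℂ) * Complex.I) := by
    have h5 : Complex.exp (((-(θ - GG η θ) : ℝ) : ℂ) * Complex.I) =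
        Complex.exp (-θ * Complex.I) * Complex.exp (GG η θ * Complex.I) := by
      rw [← Complex.exp_add]
      congr 1
      push_cast
      ring
    rw [div_eq_iff h1z0, h5, h1z]
    push_cast
    have h6 : ((RR η θ : ℂ))⁻¹ * (Complex.exp (-θ * Complex.I) * Complex.exp (GG η θ * Complex.I)) *
        ((RR η θ : ℂ) * (Complex.exp (θ * Complex.I) * Complex.exp (-(GG η θ) * Complex.I))) =
        ((RR η θ : ℂ)⁻¹ * (RR η θ : ℂ)) *
          (Complex.exp (θ * Complex.I) * Complex.exp (-θ * Complex.I)) *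
          (Complex.exp (GG η θ * Complex.I) * Complex.exp (-(GG η θ) * Complex.I)) := by ring
    rw [h6, h7, h3, inv_mul_cancel₀ hRc]
    ring
  have e3 : 1 - 1 / z = ((Real.exp (-η) * RR η θ : ℝ) : ℂ) *
      Complex.exp (((-(GG η θ) : ℝ) : ℂ) * Complex.I) := by
    have h6 : 1 / z = -(Complex.exp (-η) * Complex.exp (-θ * Complex.I)) := by
      rw [div_eq_iff hz0, hz]
      rw [neg_mul_neg, ← Complex.exp_add, ← Complex.exp_add]
      have : -(η : ℂ) + -θ * Complex.I + (η + θ * Complex.I) = 0 := by ring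
      rw [this, Complex.exp_zero]
    have hee : Complex.exp (-η) * Complex.exp η = 1 := by rw [← Complex.exp_add]; simp
    rw [h6]
    push_cast
    linear_combination Complex.exp (-η) * hpol - hee
  have hexp0 := Real.exp_pos η
  have hexp1 := Real.exp_pos (-η)
  unfold Dv DD
  rw [e2, e3]
  conv_lhs => rw [e1]
  rw [lob_arg _ _ (neg_ne_zero.2 hexp0.ne'), lob_arg_pos _ _ (by positivity),
    lob_arg_pos _ _ (by positivity), LobIneq.lob_neg, LobIneq.lob_neg]
  ring

/-- the integral in the third critical point equation -/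
noncomputable def TT (η θ : ℝ) : ℝ :=
  ∫ τ in (0:ℝ)..θ, Real.sinh η / (Real.cosh η + Real.cos τ)

theorem den_pos {η : ℝ} (hη : 0 < η) (τ : ℝ) : 0 < Real.cosh η + Real.cos τ := by
  have := arg_pos hη τ
  linarith

theorem tt_cont {η : ℝ} (hη : 0 < η) :
    Continuous (fun τ : ℝ => Real.sinh η / (Real.cosh η + Real.cos τ)) :=
  Continuous.div (by fun_prop) (by fun_prop) fun τ => (den_pos hη τ).ne'

theorem TT_deriv {η : ℝ} (hη : 0 < η) (x : ℝ) :
    HasDerivAt (TT η) (Real.sinh η / (Real.cosh η + Real.cos x)) x :=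
  ((tt_cont hη).integral_hasStrictDerivAt 0 x).hasDerivAt

theorem TT_sub {η : ℝ} (hη : 0 < η) (x y : ℝ) :
    TT η y - TT η x = ∫ τ in x..y, Real.sinh η / (Real.cosh η + Real.cos τ) := by
  unfold TT
  rw [intervalIntegral.integral_interval_sub_left ((tt_cont hη).intervalIntegrable _ _)
    ((tt_cont hη).intervalIntegrable _ _)]

theorem GG_deriv {η : ℝ} (hη : 0 < η) (θ : ℝ) :
    HasDerivAt (GG η) (1 / 2 - Real.sinh η / (Real.cosh η + Real.cos θ) / 2) θ := by
  have hc := c_pos hη θ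
  have hd := den_pos hη θ
  have h1 : HasDerivAt (fun θ => Real.sin θ / (Real.exp η + Real.cos θ))
      ((Real.cos θ * (Real.exp η + Real.cos θ) - Real.sin θ * (-Real.sin θ)) /
        (Real.exp η + Real.cos θ) ^ 2) θ :=
    (Real.hasDerivAt_sin θ).div ((Real.hasDerivAt_cos θ).const_add _) hc.ne'
  have h2 := h1.arctan
  refine h2.congr_deriv ?_
  have hR2 := RR_sq (η := η) θ
  have hR2' := RR_sq' (η := η) θ
  have hR := RR_pos hη θ
  have e1 : 1 + (Real.sin θ / (Real.exp η + Real.cos θ)) ^ 2 =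
      RR η θ ^ 2 / (Real.exp η + Real.cos θ) ^ 2 := by
    rw [hR2]; field_simp
  rw [e1, hR2']
  have hexp := Real.exp_pos η
  have hs : Real.sinh η = Real.cosh η - Real.exp (-η) := by
    rw [Real.sinh_eq, Real.cosh_eq]; ring
  have hee : Real.exp η * Real.exp (-η) = 1 := by rw [← Real.exp_add]; simp
  have hsc := Real.sin_sq_add_cos_sq θ
  rw [hs]
  field_simp
  linear_combination hsc - hee

theorem GG_cont {η : ℝ} (hη : 0 < η) : Continuous (GG η) :=
  continuous_iff_continuousAt.2 fun θ => (GG_deriv hη θ).continuousAt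

theorem DD_cont {η : ℝ} (hη : 0 < η) : Continuous (DD η) := by
  have h := GG_cont hη
  have h2 := lob_cont
  unfold DD
  fun_prop

theorem DD_deriv {η : ℝ} (hη : 0 < η) (θ : ℝ) (h0 : 0 < θ) (h1 : θ < π) :
    HasDerivAt (DD η) ((ell η θ - η * (Real.sinh η / (Real.cosh η + Real.cos θ))) / 2) θ := by
  have hs : 0 < Real.sin θ := Real.sin_pos_of_pos_of_lt_pi h0 h1
  have hR := RR_pos hη θ
  have hexp := Real.exp_pos η
  have hsG : Real.sin (GG η θ) = Real.sin θ / RR η θ := by
    rw [eq_div_iff hR.ne', mul_comm]; exact sin_GG hη θ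
  have hsG2 : Real.sin (θ - GG η θ) = Real.exp η * Real.sin θ / RR η θ := by
    rw [eq_div_iff hR.ne', mul_comm]; exact sin_sub_GG hη θ
  have hG := GG_deriv hη θ
  have d1 : HasDerivAt (fun θ => lob (GG η θ)) (g (GG η θ) *
      (1 / 2 - Real.sinh η / (Real.cosh η + Real.cos θ) / 2)) θ :=
    HasDerivAt.comp (h₂ := lob) θ (lob_hasDeriv (by rw [hsG]; positivity)) hG
  have d2 : HasDerivAt (fun θ => lob (θ - GG η θ)) (g (θ - GG η θ) *
      (1 - (1 / 2 - Real.sinh η / (Real.cosh η + Real.cos θ) / 2))) θ :=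
    HasDerivAt.comp (h₂ := lob) θ (lob_hasDeriv (by rw [hsG2]; positivity))
      ((hasDerivAt_id θ).sub hG)
  have d3 : HasDerivAt lob (g θ) θ := lob_hasDeriv hs.ne'
  have d4 := (d3.neg.add d1).add d2
  refine d4.congr_deriv ?_
  have l0 : g θ = -(Real.log 2 + Real.log (Real.sin θ)) := g_ae θ hs.ne'
  have l1 : g (GG η θ) = -(Real.log 2 + Real.log (Real.sin θ) - Real.log (RR η θ)) := by
    rw [g_ae _ (by rw [hsG]; positivity), hsG, Real.log_div hs.ne' hR.ne']
    ring
  have l2 : g (θ - GG η θ) =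
      -(Real.log 2 + (η + Real.log (Real.sin θ)) - Real.log (RR η θ)) := by
    rw [g_ae _ (by rw [hsG2]; positivity), hsG2, Real.log_div (by positivity) hR.ne',
      Real.log_mul hexp.ne' hs.ne', Real.log_exp]
    ring
  have l3 : 2 * Real.log (RR η θ) = η + ell η θ := by
    have h5 := RR_sq' (η := η) θ
    have h6 : Real.log (RR η θ ^ 2) = 2 * Real.log (RR η θ) := by
      rw [Real.log_pow]; norm_num
    rw [← h6, h5, Real.log_mul hexp.ne' (arg_pos hη θ).ne', Real.log_exp]
    rfl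
  rw [l0, l1, l2]
  linear_combination l3 / 2

theorem DD_eq_pos {η : ℝ} (hη : 0 < η) (θ : ℝ) (h0 : 0 < θ) (h1 : θ < π) :
    DD η θ = (Lf η θ - η * TT η θ) / 2 := by
  obtain ⟨c, _, hc⟩ := exists_hasDerivAt_eq_slope
    (fun x => DD η x - (Lf η x - η * TT η x) / 2) (fun _ => 0) h0
    (by
      refine ContinuousOn.sub (DD_cont hη).continuousOn ?_
      refine ContinuousOn.div_const (ContinuousOn.sub ?_ (ContinuousOn.mul continuousOn_const ?_)) _
      · exact (continuous_iff_continuousAt.2 fun x => (Lf_deriv hη x).continuousAt).continuousOn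
      · exact (continuous_iff_continuousAt.2 fun x => (TT_deriv hη x).continuousAt).continuousOn)
    (by
      intro x hx
      have d1 := DD_deriv hη x hx.1 (hx.2.trans h1)
      have d2 := ((Lf_deriv hη x).sub ((TT_deriv hη x).const_mul η)).div_const 2
      refine (d1.sub d2).congr_deriv ?_
      ring)
  have hz : DD η 0 - (Lf η 0 - η * TT η 0) / 2 = 0 := by
    simp [DD, GG, Lf, TT, lob_zero]
  rw [eq_comm, div_eq_zero_iff] at hc
  rcases hc with h | h
  · rw [hz] at h
    linarith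
  · linarith

theorem ell_neg (η τ : ℝ) : ell η (-τ) = ell η τ := by
  unfold ell; rw [Real.cos_neg]

theorem Lf_neg (η x : ℝ) : Lf η (-x) = -Lf η x := by
  unfold Lf
  have := intervalIntegral.integral_comp_neg (a := 0) (b := x) (ell η)
  simp only [ell_neg, neg_zero] at this
  rw [this, intervalIntegral.integral_symm]

theorem TT_neg (η x : ℝ) : TT η (-x) = -TT η x := by
  unfold TT
  have := intervalIntegral.integral_comp_neg (a := 0) (b := x)
    (fun τ => Real.sinh η / (Real.cosh η + Real.cos τ))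
  simp only [Real.cos_neg, neg_zero] at this
  rw [this, intervalIntegral.integral_symm]

theorem DD_eq {η : ℝ} (hη : 0 < η) (θ : ℝ) (h0 : -π < θ) (h1 : θ < π) :
    DD η θ = (Lf η θ - η * TT η θ) / 2 := by
  rcases lt_trichotomy θ 0 with h | h | h
  · have h2 := DD_eq_pos hη (-θ) (by linarith) (by linarith)
    rw [DD_neg, Lf_neg, TT_neg] at h2
    linarith
  · subst h
    simp [DD, GG, Lf, TT, lob_zero]
  · exact DD_eq_pos hη θ h h1

/-- `Dv` on the unit circle -/
theorem Dv_circle (α : ℝ) (h0 : 0 < α) (h1 : α < π) :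
    Dv (Complex.exp (α * Complex.I)) = 2 * lob (α / 2) := by
  have hs : 0 < Real.sin (α / 2) := Real.sin_pos_of_pos_of_lt_pi (by linarith) (by linarith)
  have hE0 : Complex.exp (α * Complex.I) ≠ 0 := Complex.exp_ne_zero _
  -- `1 - e^{iα} = 2 sin(α/2) e^{i(α-π)/2}`
  have key : ∀ x : ℝ, 1 - Complex.exp (x * Complex.I) =
      ((2 * Real.sin (x / 2) : ℝ) : ℂ) * Complex.exp ((((x - π) / 2 : ℝ) : ℂ) * Complex.I) := by
    intro x
    have a1 : Real.cos ((x - π) / 2) = Real.sin (x / 2) := by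
      rw [show (x - π) / 2 = x / 2 - π / 2 by ring, Real.cos_sub_pi_div_two]
    have a2 : Real.sin ((x - π) / 2) = -Real.cos (x / 2) := by
      rw [show (x - π) / 2 = x / 2 - π / 2 by ring, Real.sin_sub_pi_div_two]
    rw [Complex.exp_mul_I, Complex.exp_mul_I, ← Complex.ofReal_cos, ← Complex.ofReal_sin,
      ← Complex.ofReal_cos, ← Complex.ofReal_sin, a1, a2]
    have b1 : Real.cos x = 1 - 2 * Real.sin (x / 2) ^ 2 := by
      have := Real.cos_sq' (x / 2)
      have h2 := Real.cos_two_mul (x / 2)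
      rw [show 2 * (x / 2) = x by ring] at h2
      rw [h2, this]; ring
    have b2 : Real.sin x = 2 * Real.sin (x / 2) * Real.cos (x / 2) := by
      have h2 := Real.sin_two_mul (x / 2)
      rwa [show 2 * (x / 2) = x by ring] at h2
    rw [b1, b2]
    push_cast
    ring
  have k1 := key α
  have h1z0 : 1 - Complex.exp (α * Complex.I) ≠ 0 := by
    rw [k1]
    refine mul_ne_zero ?_ (Complex.exp_ne_zero _)
    exact_mod_cast (by positivity : 2 * Real.sin (α / 2) ≠ 0)
  have e2 : 1 / (1 - Complex.exp (α * Complex.I)) = (((2 * Real.sin (α / 2))⁻¹ : ℝ) : ℂ) *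
      Complex.exp ((((π - α) / 2 : ℝ) : ℂ) * Complex.I) := by
    rw [div_eq_iff h1z0, k1]
    have hc : ((2 * Real.sin (α / 2) : ℝ) : ℂ) ≠ 0 := by
      exact_mod_cast (by positivity : 2 * Real.sin (α / 2) ≠ 0)
    have h3 : Complex.exp ((((π - α) / 2 : ℝ) : ℂ) * Complex.I) *
        Complex.exp ((((α - π) / 2 : ℝ) : ℂ) * Complex.I) = 1 := by
      rw [← Complex.exp_add]
      have : (((π - α) / 2 : ℝ) : ℂ) * Complex.I + (((α - π) / 2 : ℝ) : ℂ) * Complex.I = 0 := by
        push_cast; ring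
      rw [this, Complex.exp_zero]
    rw [Complex.ofReal_inv]
    calc (1 : ℂ) = (((2 * Real.sin (α / 2) : ℝ) : ℂ)⁻¹ * ((2 * Real.sin (α / 2) : ℝ) : ℂ)) *
          (Complex.exp ((((π - α) / 2 : ℝ) : ℂ) * Complex.I) *
          Complex.exp ((((α - π) / 2 : ℝ) : ℂ) * Complex.I)) := by
          rw [h3, inv_mul_cancel₀ hc, mul_one]
      _ = _ := by ring
  have e3 : 1 - 1 / Complex.exp (α * Complex.I) = ((-(2 * Real.sin (α / 2)) : ℝ) : ℂ) *
      Complex.exp ((((-α - π) / 2 : ℝ) : ℂ) * Complex.I) := by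
    have h3 : 1 / Complex.exp (α * Complex.I) = Complex.exp (((-α : ℝ) : ℂ) * Complex.I) := by
      rw [one_div, ← Complex.exp_neg]
      congr 1
      push_cast; ring
    rw [h3, key (-α)]
    congr 2
    rw [neg_div, Real.sin_neg]
    ring
  unfold Dv
  rw [e2, e3]
  have e1 : Complex.exp (α * Complex.I) = ((1 : ℝ) : ℂ) * Complex.exp (α * Complex.I) := by simp
  conv_lhs => rw [e1]
  rw [lob_arg_pos _ _ one_pos, lob_arg_pos _ _ (by positivity),
    lob_arg _ _ (neg_ne_zero.2 (by positivity : 2 * Real.sin (α / 2) ≠ 0))]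
  have f1 : lob ((π - α) / 2) = -lob (α / 2 + π / 2) := by
    have h4 : (π - α) / 2 = -(α / 2 + π / 2) + π := by ring
    rw [h4, LobIneq.lob_per, LobIneq.lob_neg]
  have f2 : lob ((-α - π) / 2) = -lob (α / 2 + π / 2) := by
    have h4 : (-α - π) / 2 = -(α / 2 + π / 2) := by ring
    rw [h4, LobIneq.lob_neg]
  have f3 := lob_two_mul (α / 2)
  rw [show 2 * (α / 2) = α by ring] at f3
  rw [f1, f2, f3]
  ring

theorem ithree : S_ITHREE := by
  intro m α b η hη hα hb hαb hcrit
  have hc := Dv_circle α hα (by linarith)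
  have h1 : Dv (-Complex.exp (-(α * Complex.I)) * Complex.exp (-(η + b * Complex.I))) =
      DD η (b + α) := by
    refine Dv_in hη (b + α) _ ?_
    rw [neg_mul, ← Complex.exp_add]
    congr 2
    push_cast
    ring
  have h2 : Dv (-Complex.exp (-(α * Complex.I)) / Complex.exp (-(η + b * Complex.I))) =
      -DD η (b - α) := by
    refine Dv_out hη (b - α) _ ?_
    rw [neg_div, ← Complex.exp_sub]
    congr 2
    push_cast
    ring
  have hpi := Real.pi_pos
  rw [hc, h1, h2, DD_eq hη (b + α) (by linarith) (by linarith),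
    DD_eq hη (b - α) (by linarith) (by linarith)]
  have h3 := TT_sub hη (b - α) (b + α)
  unfold pot
  rw [← h3] at hcrit
  linear_combination -η * hcrit


end Pool.Agent.W342.VC
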